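import Pool.Agent.GRA.StmtsK
import Pool.Agent.Helper47_BSE.Fin

/-!
# GRA, row KB1
-/

open MeasureTheory Matrix Finset
open scoped ComplexConjugate

namespace Pool.Agent.GRA.H47

open Pool.Agent.Helper64_FR Pool.Agent.UTR Pool.Agent.BSE

variable {n : ℕ}

theorem sq_int (B : Finset (Fin n)) (b : Fin n) (i : Fin n) :
    Integrable (fun A : UB B => ‖((A : UU n) : Matrix (Fin n) (Fin n) ℂ) i b‖ ^ 2) (haarB B) := by
  refine BSE.H65.S.integrable_of_continuous B ?_
  exact (((continuous_apply_apply i b).comp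
    (continuous_subtype_val.comp continuous_subtype_val)).norm).pow 2

/-- first moments of a column -/
theorem sq_mean (B : Finset (Fin n)) {b i : Fin n} (hb : b ∈ B) (hi : i ∈ B) :
    ∫ A : UB B, ‖((A : UU n) : Matrix (Fin n) (Fin n) ℂ) i b‖ ^ 2 ∂(haarB B) =
      1 / (B.card : ℝ) := by
  obtain ⟨hprob, hinv⟩ := BSE.H81.inv n B
  have hsame : ∀ j ∈ B, ∫ A : UB B, ‖((A : UU n) : Matrix (Fin n) (Fin n) ℂ) j b‖ ^ 2 ∂(haarB B) =
      ∫ A : UB B, ‖((A : UU n) : Matrix (Fin n) (Fin n) ℂ) i b‖ ^ 2 ∂(haarB B) := by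
    intro j hj
    have h1 := (hinv (fun A : UB B =>
      ((‖((A : UU n) : Matrix (Fin n) (Fin n) ℂ) i b‖ ^ 2 : ℝ) : ℂ))).1
      ⟨Helper64_FR.H47.sw i j, Helper64_FR.H47.sw_mem hi hj⟩
    have h2 : ∀ A : UB B, (((⟨Helper64_FR.H47.sw i j, Helper64_FR.H47.sw_mem hi hj⟩ * A : UB B) :
        UU n) : Matrix (Fin n) (Fin n) ℂ) i b = ((A : UU n) : Matrix (Fin n) (Fin n) ℂ) j b := by
      intro A
      show (((Helper64_FR.H47.sw i j : UU n) : Matrix (Fin n) (Fin n) ℂ) *
        ((A : UU n) : Matrix (Fin n) (Fin n) ℂ)) i b = _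
      rw [Matrix.mul_apply]
      show ∑ c, (1 : Matrix (Fin n) (Fin n) ℂ) (Equiv.swap i j i) c * _ = _
      rw [Equiv.swap_apply_left, Finset.sum_eq_single j]
      · rw [Matrix.one_apply_eq, one_mul]
      · intro c _ hc
        rw [Matrix.one_apply_ne (Ne.symm hc), zero_mul]
      · simp
    simp only [h2] at h1
    rw [integral_complex_ofReal, integral_complex_ofReal] at h1
    exact Complex.ofReal_injective h1
  have hsum : ∑ j ∈ B, ∫ A : UB B, ‖((A : UU n) : Matrix (Fin n) (Fin n) ℂ) j b‖ ^ 2 ∂(haarB B) =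
      1 := by
    rw [← integral_finsetSum _ (fun j _ => sq_int B b j)]
    have : ∀ A : UB B, ∑ j ∈ B, ‖((A : UU n) : Matrix (Fin n) (Fin n) ℂ) j b‖ ^ 2 = 1 :=
      fun A => BSE.H65.col_sum B (A : UU n) A.2 b hb
    simp only [this]
    simp
  rw [Finset.sum_congr rfl hsame, Finset.sum_const, nsmul_eq_mul] at hsum
  have hc : (B.card : ℝ) ≠ 0 := by
    rw [Nat.cast_ne_zero]
    exact Finset.card_ne_zero_of_mem hb
  rw [eq_div_iff hc, mul_comm]
  exact hsum

/-- the average of `T_{B,A} c` -/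
theorem TB_int (B : Finset (Fin n)) (c : Fin n → ℝ) (i : Fin n) :
    Integrable (fun A : UB B => TB B (A : UU n) c i) (haarB B) := by
  refine BSE.H65.S.integrable_of_continuous B ?_
  exact (continuous_apply i).comp (BSE.H65.S.continuous_TB B c)

theorem TB_mean (B : Finset (Fin n)) (c : Fin n → ℝ) (i : Fin n) :
    ∫ A : UB B, TB B (A : UU n) c i ∂(haarB B) = c i - Helper64_FR.H47.dv B c i := by
  obtain ⟨hprob, -⟩ := BSE.H81.inv n B
  by_cases hi : i ∈ B
  · have h1 : ∀ A : UB B, TB B (A : UU n) c i = ∑ j ∈ B,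
        ‖((A : UU n) : Matrix (Fin n) (Fin n) ℂ) j (B.min' ⟨i, hi⟩)‖ ^ 2 * c j := by
      intro A
      unfold TB
      rw [dif_pos hi]
    simp only [h1]
    rw [integral_finsetSum _ (fun j _ => (sq_int B _ j).mul_const _)]
    have h2 : ∀ j ∈ B, ∫ A : UB B, ‖((A : UU n) : Matrix (Fin n) (Fin n) ℂ) j
        (B.min' ⟨i, hi⟩)‖ ^ 2 * c j ∂(haarB B) = 1 / (B.card : ℝ) * c j := by
      intro j hj
      rw [integral_mul_const, sq_mean B (Finset.min'_mem _ _) hj]
    rw [Finset.sum_congr rfl h2, ← Finset.mul_sum, Helper64_FR.H47.dv_of_mem hi]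
    ring
  · have h1 : ∀ A : UB B, TB B (A : UU n) c i = c i := by
      intro A
      unfold TB
      rw [dif_neg hi]
    simp only [h1]
    rw [Helper64_FR.H47.dv_of_notMem hi, sub_zero]
    simp

theorem kb1 : KB1Stmt := by
  intro n hn ρ hρ w hw μ hμ x v hv0 hv
  rcases (BSE.H47.red n 1 hn ρ hρ).2 w hw μ hμ x v hv0 hv with h | ⟨f, hf, ⟨c0, hc0⟩, hE⟩
  · exact h
  obtain ⟨N, a, X, hX, hfX⟩ := hf
  set ξ : Fin n → ℂ := fun i => ∑ t, a t * X t i with hξ
  have hξ0 : ∑ i, ξ i = 0 := by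
    rw [hξ]
    simp only
    rw [Finset.sum_comm]
    refine Finset.sum_eq_zero fun t _ => ?_
    rw [← Finset.mul_sum, hX t, mul_zero]
  have hfc : ∀ c : Fin n → ℝ, f c = ∑ i, ξ i * (c i : ℂ) := by
    intro c
    rw [hfX, hξ]
    simp only [pow_one, Finset.mul_sum, Finset.sum_mul]
    rw [Finset.sum_comm]
    refine Finset.sum_congr rfl fun i _ => Finset.sum_congr rfl fun t _ => ?_
    ring
  have hint : ∀ (B : Finset (Fin n)) (c : Fin n → ℝ),
      f c - ∫ A : UB B, f (TB B (A : UU n) c) ∂(haarB B) =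
        ∑ i, ξ i * ((Helper64_FR.H47.dv B c i : ℝ) : ℂ) := by
    intro B c
    have h1 : ∀ A : UB B, f (TB B (A : UU n) c) =
        ∑ i, ξ i * ((TB B (A : UU n) c i : ℝ) : ℂ) := fun A => hfc _
    simp only [h1]
    rw [integral_finsetSum _ (fun i _ => ((TB_int B c i).ofReal).const_mul _), hfc,
      ← Finset.sum_sub_distrib]
    refine Finset.sum_congr rfl fun i _ => ?_
    rw [integral_const_mul, integral_complex_ofReal, TB_mean]
    push_cast
    ring
  have hE' : ∀ c : Fin n → ℝ, ∑ B : Finset (Fin n), (w B : ℂ) *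
      (∑ i, ξ i * ((Helper64_FR.H47.dv B c i : ℝ) : ℂ)) = (x : ℂ) * ∑ i, ξ i * (c i : ℂ) := by
    intro c
    have := hE c
    simp only [hint] at this
    rw [this, hfc]
  -- the real form of the eigenvalue equation for the real or imaginary part
  have key : ∀ (r : Fin n → ℝ) (hr : ∑ i, r i = 0) (hne : ∃ i, r i ≠ 0),
      (∀ c : Fin n → ℝ, ∑ B : Finset (Fin n), w B *
        (∑ i, r i * Helper64_FR.H47.dv B c i) = x * ∑ i, r i * c i) → μ ≤ x := by
    intro r hr hne hr2
    have h1 := hr2 r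
    have h2 : ∀ B : Finset (Fin n), ∑ i, r i * Helper64_FR.H47.dv B r i =
        ∑ i, Helper64_FR.H47.dv B r i ^ 2 := by
      intro B
      have := Helper64_FR.H47.dv_mul_eq B r r
      simp only [pow_two]
      rw [← this]
      exact Finset.sum_congr rfl fun i _ => mul_comm _ _
    simp only [h2] at h1
    have h3 := hμ r
    rw [h1] at h3
    have h4 : ∀ i, Helper64_FR.H47.dv Finset.univ r i = r i := by
      intro i
      rw [Helper64_FR.H47.dv_of_mem (Finset.mem_univ i), hr, zero_div, sub_zero]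
    simp only [h4] at h3
    have h5 : 0 < ∑ i, r i ^ 2 := by
      obtain ⟨i, hi⟩ := hne
      exact Finset.sum_pos' (fun i _ => sq_nonneg _) ⟨i, Finset.mem_univ i, by positivity⟩
    have h6 : ∑ i, r i * r i = ∑ i, r i ^ 2 := Finset.sum_congr rfl fun i _ => (pow_two _).symm
    rw [h6] at h3
    exact le_of_mul_le_mul_right h3 h5
  have hne : ∃ i, ξ i ≠ 0 := by
    by_contra hc
    push Not at hc
    apply hc0
    rw [hfc]
    exact Finset.sum_eq_zero fun i _ => by rw [hc i, zero_mul]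
  obtain ⟨i, hi⟩ := hne
  have hre : ∀ (z : ℂ) (t : ℝ), (z * (t : ℂ)).re = z.re * t := fun z t => Complex.re_mul_ofReal z t
  have him : ∀ (z : ℂ) (t : ℝ), (z * (t : ℂ)).im = z.im * t := fun z t => Complex.im_mul_ofReal z t
  by_cases hir : (ξ i).re = 0
  · refine key (fun i => (ξ i).im) ?_ ⟨i, fun h => hi (Complex.ext hir h)⟩ ?_
    · rw [← Complex.im_sum, hξ0, Complex.zero_im]
    · intro c
      have := congrArg Complex.im (hE' c)
      rw [Complex.im_sum, Complex.im_ofReal_mul, Complex.im_sum] at this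
      simp only [Complex.im_ofReal_mul, Complex.im_sum, him] at this
      exact this
  · refine key (fun i => (ξ i).re) ?_ ⟨i, hir⟩ ?_
    · rw [← Complex.re_sum, hξ0, Complex.zero_re]
    · intro c
      have := congrArg Complex.re (hE' c)
      rw [Complex.re_sum, Complex.re_ofReal_mul, Complex.re_sum] at this
      simp only [Complex.re_ofReal_mul, Complex.re_sum, hre] at this
      exact this

end Pool.Agent.GRA.H47
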