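import Pool.Agent.GRA.StmtsM
import Pool.Agent.Helper47_FR.Der
import Pool.Agent.Helper73_FR.Cas
import Pool.Agent.Helper90_UTR.GRM

/-!
# GRA, row MHC
-/

open MeasureTheory Matrix Finset
open scoped ComplexConjugate

namespace Pool.Agent.GRA.H47

open Pool.Agent.Helper64_FR Pool.Agent.UTR Pool.Agent.BSE

/-- inner products in a decomposition -/
theorem inner_deco {n : ℕ} {ρ : URep (n + 1)} (d : Deco ρ) (x y : ρ.Sp)
    (hy : Fx ρ {Fin.last n} y) :
    (inner ℂ x y : ℂ) = ∑ t, inner ℂ (pr (d.T t) x) (pr (d.T t) y) := by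
  conv_lhs => rw [d.tot y hy]
  rw [inner_sum]
  refine Finset.sum_congr rfl fun t _ => ?_
  show inner ℂ x ((d.T t).toContinuousLinearMap (pr (d.T t) y)) = _
  rw [← ContinuousLinearMap.adjoint_inner_left]
  rfl

/-- the pattern of the inner products of the `q_ab` -/
noncomputable def pat {N : ℕ} (a b c d : Fin N) : ℝ :=
  (2 / 3) * (if (a = c ∧ b = d) ∨ (a = d ∧ b = c) then 1 else 0) +
    (1 / 6) * ((if a = c then 1 else 0) + (if a = d then 1 else 0) + (if b = c then 1 else 0) +
      (if b = d then 1 else 0))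

theorem pat_self {N : ℕ} {a b : Fin N} (h : a ≠ b) : pat a b a b = 1 := by
  simp [pat, h, Ne.symm h]; norm_num

theorem pat_inj {N M : ℕ} (φ : Fin N → Fin M) (hφ : Function.Injective φ) (a b c d : Fin N) :
    pat (φ a) (φ b) (φ c) (φ d) = pat a b c d := by
  simp only [pat, hφ.eq_iff]

/-- sum of the pattern over the second pair -/
theorem pat_sum {N : ℕ} {a b : Fin N} (h : a ≠ b) :
    ∑ c, ∑ d, (if c = d then 0 else pat a b c d) = (2 / 3) * ((N : ℝ) + 1) := by
  have h1 : ∀ c d : Fin N, (if c = d then 0 else pat a b c d) =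
      (2 / 3) * ((if c = a then (if d = b then 1 else 0) else 0) +
        (if c = b then (if d = a then 1 else 0) else 0)) +
      (1 / 6) * ((if c = a then (if d = a then 0 else 1) else 0) +
        (if d = a then (if c = a then 0 else 1) else 0) +
        (if c = b then (if d = b then 0 else 1) else 0) +
        (if d = b then (if c = b then 0 else 1) else 0)) := by
    intro c d
    by_cases hcd : c = d
    · subst hcd
      by_cases h1 : c = a
      · subst h1; simp [h]
      · by_cases h2 : c = b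
        · subst h2; simp [h1]
        · simp [h1, h2]
    · unfold pat
      by_cases h1 : c = a
      · subst h1
        by_cases h2 : d = b
        · subst h2; simp [h, Ne.symm h]
        · simp [hcd, h, Ne.symm h, h2, Ne.symm h2, Ne.symm hcd]
      · by_cases h2 : c = b
        · subst h2
          by_cases h3 : d = a
          · subst h3; simp [h, Ne.symm h]
          · simp [hcd, h, Ne.symm h, h3, Ne.symm h3, Ne.symm hcd]
        · by_cases h3 : d = a
          · subst h3; simp [hcd, h, Ne.symm h, h2, Ne.symm h2, Ne.symm hcd]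
          · by_cases h4 : d = b
            · subst h4; simp [hcd, h, Ne.symm h, h1, Ne.symm h1, Ne.symm hcd]
            · simp [hcd, h1, h2, h3, h4, Ne.symm h1, Ne.symm h2, Ne.symm h3, Ne.symm h4]
  have hcnt : ∀ x : Fin N, ∑ d : Fin N, (if d = x then (0 : ℝ) else 1) = (N : ℝ) - 1 := by
    intro x
    have : ∑ d : Fin N, (if d = x then (0 : ℝ) else 1) =
        ∑ d : Fin N, (1 - (if d = x then (1 : ℝ) else 0)) :=
      Finset.sum_congr rfl fun d _ => by split_ifs <;> ring
    rw [this, Finset.sum_sub_distrib]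
    simp
  simp only [h1, Finset.sum_add_distrib, ← Finset.mul_sum]
  have e1 : ∀ x y : Fin N, ∑ c : Fin N, ∑ d : Fin N,
      (if c = x then (if d = y then (1 : ℝ) else 0) else 0) = 1 := by
    intro x y
    rw [Finset.sum_eq_single x]
    · simp
    · intro c _ hc; simp [hc]
    · simp
  have e2 : ∀ x : Fin N, ∑ c : Fin N, ∑ d : Fin N,
      (if c = x then (if d = x then (0 : ℝ) else 1) else 0) = (N : ℝ) - 1 := by
    intro x
    rw [Finset.sum_eq_single x]
    · simp only [if_true]; exact hcnt x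
    · intro c _ hc; simp [hc]
    · simp
  have e3 : ∀ x : Fin N, ∑ c : Fin N, ∑ d : Fin N,
      (if d = x then (if c = x then (0 : ℝ) else 1) else 0) = (N : ℝ) - 1 := by
    intro x
    rw [Finset.sum_comm]
    exact e2 x
  rw [e1, e1, e2, e2, e3, e3]
  ring

theorem mhc (mde : MDEStmt) (mzc : MZCStmt) (mcp : MCPStmt) (mdn : MDNStmt) (m2a : M2AStmt)
    (m2b : M2BStmt) (mip : MIPStmt) (msh : MSHStmt) : MHCStmt := by
  intro p hp hMF ρ D C hirr hns hD hC f hT hS hf
  by_contra hlt
  push Not at hlt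
  have hp4 : (4 : ℝ) ≤ p := by exact_mod_cast hp
  obtain ⟨d⟩ := mde p ρ
  obtain ⟨-, h2, -, h4, h5, h6⟩ := mip p ρ d
  have hD1 : D 1 = 0 := mzc _ ρ D hD hirr f hf hT
  obtain ⟨-, -, -, s4, -, s6⟩ := msh _ ρ D hD
  have hder : ∀ t, ∃ (D' : Matrix (Fin p) (Fin p) ℂ →ₗ[ℂ] ((d.σ t).Sp →L[ℂ] (d.σ t).Sp)) (C' : ℝ),
      IsDer (d.σ t) D' ∧ IsCas (d.σ t) D' C' := by
    intro t
    obtain ⟨D', hD'⟩ := Pool.Agent.Helper64_FR.H47.der p (d.σ t)
    obtain ⟨C', -, hC', -⟩ := Pool.Agent.Helper64_FR.H73.cas p (d.σ t) D' (d.irr t) hD'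
    exact ⟨D', C', hD', hC'⟩
  set κ : ℝ := 2 * ((p : ℝ) + 1) / (3 * p * (p - 1)) with hκ
  have hpp : 0 < 3 * (p : ℝ) * (p - 1) := by nlinarith
  have hκpos : 0 < κ := div_pos (by linarith) hpp
  -- the components
  have hcomp : ∀ t, ∀ a b c e : Fin p, a ≠ b → c ≠ e →
      (inner ℂ (pr (d.T t) f - (d.σ t).P {a, b} (pr (d.T t) f))
        (pr (d.T t) f - (d.σ t).P {c, e} (pr (d.T t) f)) : ℂ) =
        ((κ * pat a b c e * ‖pr (d.T t) f‖ ^ 2 : ℝ) : ℂ) := by
    intro t a b c e hab hce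
    by_cases h0 : pr (d.T t) f = 0
    · rw [h0]; simp
    obtain ⟨D', C', hD', hC'⟩ := hder t
    have hTt := (h4 t f).1 hT
    have hSt := (h4 t f).2 hS
    have hntr := h5 hns t
    have hW : W2 (d.σ t) D' := by
      rcases mcp p (by omega) hMF (d.σ t) D' C' (d.irr t) hD' hC' _ hTt hSt h0 with h | ⟨hC6, ⟨ν, v, hv, hw, h3⟩, -⟩
      · exact h
      · exfalso
        have := (mdn p ρ (d.σ t) (d.T t) (d.cmp t) D D' C C' hD hD' hC hC' hD1).2 ν v hv hw
        linarith
    obtain ⟨-, hA⟩ := m2a p (by omega) (d.σ t) D' C' hntr hD' hC' hW _ hTt hSt h0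
    obtain ⟨hB1, hB2⟩ := m2b p (by omega) (d.σ t) D' C' hntr hD' hC' hW _ hTt hSt h0
    have hn : ∀ a b : Fin p, a ≠ b → ‖pr (d.T t) f - (d.σ t).P {a, b} (pr (d.T t) f)‖ ^ 2 =
        κ * ‖pr (d.T t) f‖ ^ 2 := by
      intro a b hab
      have := (hA a b hab).2
      have h1 : κ * (3 * (p : ℝ) * (p - 1)) = 2 * ((p : ℝ) + 1) := div_mul_cancel₀ _ hpp.ne'
      have h2 : 3 * (p : ℝ) * (p - 1) *
          ‖pr (d.T t) f - (d.σ t).P {a, b} (pr (d.T t) f)‖ ^ 2 =
          3 * (p : ℝ) * (p - 1) * (κ * ‖pr (d.T t) f‖ ^ 2) := by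
        rw [this, ← h1]; ring
      exact mul_left_cancel₀ hpp.ne' h2
    have hadj : ∀ a b c : Fin p, a ≠ b → a ≠ c → b ≠ c →
        (inner ℂ (pr (d.T t) f - (d.σ t).P {a, b} (pr (d.T t) f))
          (pr (d.T t) f - (d.σ t).P {a, c} (pr (d.T t) f)) : ℂ) =
        ((κ * (1 / 6) * ‖pr (d.T t) f‖ ^ 2 : ℝ) : ℂ) := by
      intro a b c hab hac hbc
      rw [hB1 a b c hab hac hbc, hn a b hab]
      congr 1
      ring
    have hself : ∀ a b : Fin p, a ≠ b →
        (inner ℂ (pr (d.T t) f - (d.σ t).P {a, b} (pr (d.T t) f))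
          (pr (d.T t) f - (d.σ t).P {a, b} (pr (d.T t) f)) : ℂ) =
        ((κ * ‖pr (d.T t) f‖ ^ 2 : ℝ) : ℂ) := by
      intro a b hab
      rw [inner_self_eq_norm_sq_to_K]
      have := hn a b hab
      rw [← this]
      push_cast
      rfl
    by_cases c1 : a = c
    · subst c1
      by_cases c2 : b = e
      · subst c2
        rw [pat_self hab, mul_one]
        exact hself a b hab
      · rw [hadj a b e hab hce c2]
        have : pat a b a e = 1 / 6 := by
          simp [pat, c2, hce, hab, Ne.symm hab]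
        rw [this]
    · by_cases c2 : a = e
      · subst c2
        rw [Finset.pair_comm c a]
        by_cases c3 : b = c
        · subst c3
          have : pat a b b a = 1 := by
            simp [pat, hab, Ne.symm hab]; norm_num
          rw [this, mul_one]
          exact hself a b hab
        · rw [hadj a b c hab c1 c3]
          have : pat a b c a = 1 / 6 := by
            simp [pat, c1, c3, hab, Ne.symm hab]
          rw [this]
      · by_cases c3 : b = c
        · subst c3
          rw [Finset.pair_comm a b, hadj b a e (Ne.symm hab) hce c2]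
          have : pat a b b e = 1 / 6 := by
            simp [pat, c2, hab, hce]
          rw [this]
        · by_cases c4 : b = e
          · subst c4
            rw [Finset.pair_comm a b, Finset.pair_comm c b, hadj b a c (Ne.symm hab) c3 c1]
            have : pat a b c b = 1 / 6 := by
              simp [pat, c1, hab, c3]
            rw [this]
          · rw [hB2 a b c e hab c1 c2 c3 c4 hce]
            have : pat a b c e = 0 := by
              simp [pat, c1, c2, c3, c4]
            rw [this]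
            simp
  -- the vectors `q_ab` in `ρ`
  set Q : Fin (p + 1) → Fin (p + 1) → ρ.Sp := fun a b => f - ρ.P {a, b} f with hQ
  have hQT : ∀ a b, TInv ρ (Q a b) := by
    intro a b
    exact (TI ρ).sub_mem (show f ∈ TI ρ from hT) ((s6 f hT).1 _)
  have hmap : ∀ a b : Fin p, ({a.castSucc, b.castSucc} : Finset (Fin (p + 1))) =
      ({a, b} : Finset (Fin p)).map Fin.castSuccEmb := by
    intro a b
    rw [Finset.map_insert, Finset.map_singleton]
    rfl
  have hprQ : ∀ t (a b : Fin p), pr (d.T t) (Q a.castSucc b.castSucc) =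
      pr (d.T t) f - (d.σ t).P {a, b} (pr (d.T t) f) := by
    intro t a b
    show pr (d.T t) (f - ρ.P {a.castSucc, b.castSucc} f) = _
    rw [map_sub, hmap, h2]
  have hnf : ‖f‖ ^ 2 = ∑ t, ‖pr (d.T t) f‖ ^ 2 := (h6 f hT).1
  have hcast : ∀ a b c e : Fin p, a ≠ b → c ≠ e →
      (inner ℂ (Q a.castSucc b.castSucc) (Q c.castSucc e.castSucc) : ℂ) =
        ((κ * pat a b c e * ‖f‖ ^ 2 : ℝ) : ℂ) := by
    intro a b c e hab hce
    rw [inner_deco d _ _ (hQT _ _ (Fin.last p))]
    simp only [hprQ]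
    rw [Finset.sum_congr rfl fun t _ => hcomp t a b c e hab hce, hnf, Finset.mul_sum]
    push_cast
    rfl
  have hQperm : ∀ (τ : Equiv.Perm (Fin (p + 1))) a b, ρ.op (pm τ) (Q a b) = Q (τ a) (τ b) := by
    intro τ a b
    show ρ.op (pm τ) (f - ρ.P {a, b} f) = f - ρ.P {τ a, τ b} f
    rw [map_sub, s4, hS τ, Finset.map_insert, Finset.map_singleton]
    rfl
  have hall : ∀ a b c e : Fin (p + 1), a ≠ b → c ≠ e →
      (inner ℂ (Q a b) (Q c e) : ℂ) = ((κ * pat a b c e * ‖f‖ ^ 2 : ℝ) : ℂ) := by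
    intro a b c e hab hce
    obtain ⟨m, hm⟩ : ∃ m : Fin (p + 1), m ∉ ({a, b, c, e} : Finset (Fin (p + 1))) := by
      by_contra hcon
      push Not at hcon
      have h1 : (Finset.univ : Finset (Fin (p + 1))) ⊆ {a, b, c, e} := fun x _ => hcon x
      have h2 := Finset.card_le_card h1
      have h3 : ({a, b, c, e} : Finset (Fin (p + 1))).card ≤ 4 := Finset.card_le_four
      rw [Finset.card_univ, Fintype.card_fin] at h2
      omega
    simp only [Finset.mem_insert, Finset.mem_singleton, not_or] at hm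
    obtain ⟨m1, m2, m3, m4⟩ := hm
    set τ : Equiv.Perm (Fin (p + 1)) := Equiv.swap m (Fin.last p) with hτ
    have hne : ∀ x, m ≠ x → ∃ y : Fin p, τ x = y.castSucc := by
      intro x hx
      have : τ x ≠ Fin.last p := by
        intro h
        have h1 : τ m = Fin.last p := Equiv.swap_apply_left _ _
        exact hx (τ.injective (h1.trans h.symm))
      obtain ⟨y, hy⟩ := Fin.exists_castSucc_eq.mpr this
      exact ⟨y, hy.symm⟩
    obtain ⟨a', ha'⟩ := hne a m1
    obtain ⟨b', hb'⟩ := hne b m2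
    obtain ⟨c', hc'⟩ := hne c m3
    obtain ⟨e', he'⟩ := hne e m4
    have hab' : a' ≠ b' := fun h => hab (τ.injective (by rw [ha', hb', h]))
    have hce' : c' ≠ e' := fun h => hce (τ.injective (by rw [hc', he', h]))
    rw [← Pool.Agent.UTR.H90.inner_op_op ρ (pm τ), hQperm, hQperm, ha', hb', hc', he',
      hcast a' b' c' e' hab' hce']
    congr 2
    congr 1
    rw [← pat_inj Fin.castSucc (Fin.castSucc_injective p) a' b' c' e', ← ha', ← hb', ← hc', ← he',
      pat_inj τ τ.injective]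
  -- the sum
  set e : ρ.Sp := ∑ a, ∑ b, (if a = b then (0 : ρ.Sp) else Q a b) with he
  set s : ℝ := κ * ‖f‖ ^ 2 with hs
  have hfpos : 0 < ‖f‖ ^ 2 := by positivity
  have hspos : 0 < s := mul_pos hκpos hfpos
  have hQe : ∀ a b, a ≠ b → (inner ℂ (Q a b) e : ℂ) = (((2 / 3) * ((p : ℝ) + 1 + 1) * s : ℝ) : ℂ) := by
    intro a b hab
    rw [he, inner_sum]
    simp only [inner_sum]
    have : ∀ c x : Fin (p + 1), (inner ℂ (Q a b) (if c = x then (0 : ρ.Sp) else Q c x) : ℂ) =
        (((if c = x then 0 else pat a b c x) * s : ℝ) : ℂ) := by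
      intro c x
      by_cases hcx : c = x
      · rw [if_pos hcx, if_pos hcx]; simp
      · rw [if_neg hcx, if_neg hcx, hall a b c x hab hcx]
        congr 1
        rw [hs]; ring
    simp only [this]
    have h1 := pat_sum hab
    rw [show ∑ c : Fin (p + 1), ∑ x : Fin (p + 1), (((if c = x then 0 else pat a b c x) * s : ℝ) : ℂ) =
      (((∑ c : Fin (p + 1), ∑ x : Fin (p + 1), (if c = x then 0 else pat a b c x)) * s : ℝ) : ℂ) by
        simp only [Finset.sum_mul]
        push_cast
        rfl]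
    rw [h1]
    push_cast
    ring
  have hcount : ∑ a : Fin (p + 1), ∑ b : Fin (p + 1), (if a = b then (0 : ℝ) else 1) =
      ((p : ℝ) + 1) * p := by
    have h1 : ∀ a : Fin (p + 1), ∑ b : Fin (p + 1), (if a = b then (0 : ℝ) else 1) = p := by
      intro a
      have : ∑ b : Fin (p + 1), (if a = b then (0 : ℝ) else 1) =
          ∑ b : Fin (p + 1), (1 - (if a = b then (1 : ℝ) else 0)) :=
        Finset.sum_congr rfl fun b _ => by split_ifs <;> ring
      rw [this, Finset.sum_sub_distrib]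
      simp
    simp only [h1]
    simp
  have hee : ‖e‖ ^ 2 = ((p : ℝ) + 1) * p * ((2 / 3) * ((p : ℝ) + 1 + 1) * s) := by
    have h1 : (inner ℂ e e : ℂ) = ((((p : ℝ) + 1) * p * ((2 / 3) * ((p : ℝ) + 1 + 1) * s) : ℝ) : ℂ) := by
      conv_lhs => rw [he]
      rw [sum_inner]
      simp only [sum_inner]
      rw [← he]
      have : ∀ c x : Fin (p + 1), (inner ℂ (if c = x then (0 : ρ.Sp) else Q c x) e : ℂ) =
          (((if c = x then 0 else 1) * ((2 / 3) * ((p : ℝ) + 1 + 1) * s) : ℝ) : ℂ) := by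
        intro c x
        by_cases hcx : c = x
        · rw [if_pos hcx, if_pos hcx]; simp
        · rw [if_neg hcx, if_neg hcx, hQe c x hcx, one_mul]
      simp only [this]
      rw [show ∑ c : Fin (p + 1), ∑ x : Fin (p + 1),
          (((if c = x then 0 else 1) * ((2 / 3) * ((p : ℝ) + 1 + 1) * s) : ℝ) : ℂ) =
        (((∑ c : Fin (p + 1), ∑ x : Fin (p + 1), (if c = x then (0 : ℝ) else 1)) *
          ((2 / 3) * ((p : ℝ) + 1 + 1) * s) : ℝ) : ℂ) by
          simp only [Finset.sum_mul]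
          push_cast
          rfl]
      rw [hcount]
    rw [inner_self_eq_norm_sq_to_K] at h1
    have h2 : ((‖e‖ ^ 2 : ℝ) : ℂ) =
        ((((p : ℝ) + 1) * p * ((2 / 3) * ((p : ℝ) + 1 + 1) * s) : ℝ) : ℂ) := by
      rw [← h1]; push_cast; rfl
    exact Complex.ofReal_injective h2
  have hfe : (inner ℂ f e : ℂ) = ((((p : ℝ) + 1) * p * s : ℝ) : ℂ) := by
    rw [he, inner_sum]
    simp only [inner_sum]
    have : ∀ c x : Fin (p + 1), (inner ℂ f (if c = x then (0 : ρ.Sp) else Q c x) : ℂ) =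
        (((if c = x then 0 else 1) * s : ℝ) : ℂ) := by
      intro c x
      by_cases hcx : c = x
      · rw [if_pos hcx, if_pos hcx]; simp
      · rw [if_neg hcx, if_neg hcx, one_mul]
        have h1 := hall c x c x hcx hcx
        rw [pat_self hcx, mul_one] at h1
        have h2 : (inner ℂ (ρ.P {c, x} f) (Q c x) : ℂ) = 0 := by
          show (inner ℂ (ρ.P {c, x} f) (f - ρ.P {c, x} f) : ℂ) = 0
          have hst := (Pool.Agent.Helper64_FR.FIX_proof _ ρ {c, x}).2.2.1
          have hid := (Pool.Agent.Helper64_FR.FIX_proof _ ρ {c, x}).2.2.2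
          rw [inner_sub_right]
          have h3 : (inner ℂ (ρ.P {c, x} f) (ρ.P {c, x} f) : ℂ) = inner ℂ (ρ.P {c, x} f) f := by
            have h4 := ContinuousLinearMap.adjoint_inner_left (ρ.P {c, x}) f (ρ.P {c, x} f)
            rw [show ContinuousLinearMap.adjoint (ρ.P {c, x}) = ρ.P {c, x} from hst] at h4
            rw [← h4]
            have h5 : ρ.P {c, x} (ρ.P {c, x} f) = ρ.P {c, x} f :=
              congrArg (fun A : ρ.Sp →L[ℂ] ρ.Sp => A f) hid
            rw [h5]
          rw [h3, sub_self]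
        have h3 : f = Q c x + ρ.P {c, x} f := by
          show f = f - ρ.P {c, x} f + ρ.P {c, x} f
          rw [sub_add_cancel]
        conv_lhs => rw [h3]
        rw [inner_add_left, h2, add_zero, h1]
    simp only [this]
    rw [show ∑ c : Fin (p + 1), ∑ x : Fin (p + 1), (((if c = x then 0 else 1) * s : ℝ) : ℂ) =
      (((∑ c : Fin (p + 1), ∑ x : Fin (p + 1), (if c = x then (0 : ℝ) else 1)) * s : ℝ) : ℂ) by
        simp only [Finset.sum_mul]
        push_cast
        rfl]
    rw [hcount]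
  have hcs := norm_inner_le_norm (𝕜 := ℂ) f e
  have h7 : (((p : ℝ) + 1) * p * s) ^ 2 ≤ ‖f‖ ^ 2 * ‖e‖ ^ 2 := by
    rw [hfe, Complex.norm_real, Real.norm_of_nonneg (by positivity)] at hcs
    calc (((p : ℝ) + 1) * p * s) ^ 2 ≤ (‖f‖ * ‖e‖) ^ 2 := pow_le_pow_left₀ (by positivity) hcs 2
      _ = ‖f‖ ^ 2 * ‖e‖ ^ 2 := by ring
  rw [hee] at h7
  have h8 : ((p : ℝ) + 1) * p * s ≤ ‖f‖ ^ 2 * ((2 / 3) * ((p : ℝ) + 1 + 1)) := by
    have h9 : (((p : ℝ) + 1) * p * s) * (((p : ℝ) + 1) * p * s) ≤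
        (‖f‖ ^ 2 * ((2 / 3) * ((p : ℝ) + 1 + 1))) * (((p : ℝ) + 1) * p * s) := by
      nlinarith [h7]
    exact le_of_mul_le_mul_right h9 (by positivity)
  have h9 : ((p : ℝ) + 1) * p * κ ≤ (2 / 3) * ((p : ℝ) + 1 + 1) := by
    have h10 : (((p : ℝ) + 1) * p * κ) * ‖f‖ ^ 2 ≤ ((2 / 3) * ((p : ℝ) + 1 + 1)) * ‖f‖ ^ 2 := by
      rw [hs] at h8
      linarith
    exact le_of_mul_le_mul_right h10 hfpos
  rw [hκ] at h9
  have h10 : ((p : ℝ) + 1) * p * (2 * ((p : ℝ) + 1) / (3 * p * (p - 1))) =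
      2 * ((p : ℝ) + 1) ^ 2 / (3 * (p - 1)) := by
    field_simp
  rw [h10, div_le_iff₀ (by linarith)] at h9
  nlinarith

end Pool.Agent.GRA.H47
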