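import Pool.Agent.Helper2_GRA.Fin
import Pool.Agent.Helper2_GRA.KW2
import Pool.Agent.Helper2_GRA.MWT
import Pool.Agent.Helper2_GRA.WTD
import Pool.Agent.Helper2_GRA.MSH
import Pool.Agent.Helper2_GRA.MIN
import Pool.Agent.Helper27_GRA.CGR
import Pool.Agent.Helper56_GRA.CAR
import Pool.Agent.Helper56_GRA.CDE
import Pool.Agent.Helper56_GRA.FON
import Pool.Agent.Helper81_GRA.CKA
import Pool.Agent.Helper86_GRA.ConRow
import Pool.Agent.Helper86_GRA.CPR
import Pool.Agent.Helper86_GRA.KZO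
import Pool.Agent.Helper86_GRA.KSW
import Pool.Agent.Helper65_GRA.CTR
import Pool.Agent.Helper65_GRA.KB0
import Pool.Agent.Helper65_GRA.MCA
import Pool.Agent.Helper65_GRA.FIN
import Pool.Agent.Helper94_GRA.FEN
import Pool.Agent.Helper94_GRA.FNS
import Pool.Agent.Helper25_GRA.KEQ
import Pool.Agent.Helper39_GRA.KEX
import Pool.Agent.Helper39_GRA.MIP
import Pool.Agent.Helper35_GRA.KGG
import Pool.Agent.Helper24_GRA.KSP
import Pool.Agent.Helper76_GRA.KSU
import Pool.Agent.Helper76_GRA.M2A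
import Pool.Agent.Helper76_GRA.MF4
import Pool.Agent.Helper3_GRA.KW1
import Pool.Agent.Helper9_GRA.M2B
import Pool.Agent.Helper14_GRA.MAR
import Pool.Agent.Helper14_GRA.MFA
import Pool.Agent.Helper21_GRA.MDE
import Pool.Agent.Helper21_GRA.MIR
import Pool.Agent.Helper32_GRA.Mdn
import Pool.Agent.Helper84_GRA.MF3
import Pool.Agent.Helper33_GRA.MPA
import Pool.Agent.Helper33_GRA.MK6
import Pool.Agent.Helper99_GRA.MRB
import Pool.Agent.Helper10_GRA.MZC
import Pool.Agent.Helper77_GRA.SYS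
import Pool.Agent.Helper88_GRA.KMB
import Pool.Agent.Helper89_GRA.KNZ
import Pool.Agent.Helper99_GRA.KRG
import Pool.Agent.Helper83_GRA.MCP
import Pool.Agent.Helper47_GRA.Mhc
import Pool.Agent.Helper47_GRA.Kb1

/-!
# Assembly of the theorem on weighted graphs (problem MP_3b0ba7_pr)
-/

open MeasureTheory Matrix Finset

namespace Pool.Agent.GRA.H47

open Pool.Agent.Helper64_FR Pool.Agent.UTR Pool.Agent.BSE

theorem ctr : CTRStmt := H65.ctr H02.ald H27.cgr H56.cde H56.car H86.con H86.cpr H81.cka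

theorem msh : MSHStmt := H02.msh

theorem mk6 : MK6Stmt := H33.mk6 msh (H33.mpa msh)

theorem mca : MCAStmt := H65.mca msh

theorem mwt : MWTStmt := H02.mwt

theorem m2a : M2AStmt := H76m.m2a msh mk6 mca mwt

theorem m2b : M2BStmt := H09.m2b msh mk6 mca m2a

theorem mde : MDEStmt := H21.mde H21.mir

theorem mdn : MDNStmt := H32.mdn H02.min

theorem med : MEDStmt := H32.med mdn mca

theorem ksp : KSPStmt := H24.ksp H86.ksw (H89.knz H39.kex H86.kzo) (H99.krg H39.kex H25.keq)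

theorem kw1 : KW1Stmt := H3.kw1 H02.wtd

theorem kw2 : KW2Stmt := H02.kw2 H02.wtd mwt

theorem kmb : KMBStmt := H88.kmb H35.kgg H76.ksu

theorem mcp : MCPStmt := H83.mcp ksp kw1 kw2 kmb msh mk6 mca

theorem mhc' : MHCStmt := mhc mde H10.mzc mcp mdn m2a m2b H39.mip msh

theorem mrb : MRBStmt := H99.mrb mde H10.mzc mcp m2a mdn med H39.mip H14.mar mwt mk6 mca msh

theorem mf3 : MF3Stmt := H84.mf3 msh mk6 mca

theorem mf4 : MF4Stmt := H76f.mf4 mde mcp m2a H39.mip msh mk6 mca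

theorem mfa : MFAStmt := H14.mfa mf3 mf4 mhc' mrb

theorem fns : FNSStmt := H94.fns ctr (H77.sys msh) mfa

theorem fin : FINStmt := H65.fin ksp H65.kb0 kb1 H94.fen fns H56.fon

end Pool.Agent.GRA.H47
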